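import Mathlib
import Pool.Agent.H77.TF.Stm

/-!
# Project TF, module BIJ (helper40): isomorphisms of the intersection lattices
-/

set_option autoImplicit false

open Module

namespace Pool.Agent.H40.TF.BJ

open Pool.Agent.H77.TF

variable {K : Type} [Field K] {l n m : ℕ}

lemma mem_hyp {a x : Fin l → K} : x ∈ hyp a ↔ ∑ j, a j * x j = 0 := by
  simp [hyp, LinearMap.mem_ker, LinearMap.sum_apply]

/-- the functional of a vector -/
noncomputable def fn (a : Fin l → K) : (Fin l → K) →ₗ[K] K :=
  ∑ j, a j • (LinearMap.proj j : (Fin l → K) →ₗ[K] K)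

lemma fn_apply (a x : Fin l → K) : fn a x = ∑ j, a j * x j := by
  simp [fn, LinearMap.sum_apply]

lemma fn_single (a : Fin l → K) (j : Fin l) : fn a (Pi.single j 1) = a j := by
  classical
  rw [fn_apply]
  simp [Pi.single_apply]

lemma inf_le {a b c : Fin l → K} :
    hyp a ⊓ hyp b ≤ hyp c ↔ c ∈ Submodule.span K {a, b} := by
  constructor
  · intro h
    have h1 : fn c ∈ Submodule.span K (Set.range ![fn a, fn b]) := by
      apply mem_span_of_iInf_ker_le_ker
      intro x hx
      apply h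
      rw [Submodule.mem_iInf] at hx
      exact ⟨hx 0, hx 1⟩
    rw [Matrix.range_cons_cons_empty, Submodule.mem_span_pair] at h1
    obtain ⟨s, t, hst⟩ := h1
    rw [Submodule.mem_span_pair]
    refine ⟨s, t, ?_⟩
    ext j
    have h2 := congrArg (fun f : (Fin l → K) →ₗ[K] K => f (Pi.single j 1)) hst
    simp only [LinearMap.add_apply, LinearMap.smul_apply, fn_single] at h2
    exact h2
  · intro h x hx
    obtain ⟨s, t, rfl⟩ := Submodule.mem_span_pair.1 h
    have h1 := mem_hyp.1 hx.1
    have h2 := mem_hyp.1 hx.2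
    rw [mem_hyp]
    have h3 : ∑ j, (s • a + t • b) j * x j = s * ∑ j, a j * x j + t * ∑ j, b j * x j := by
      rw [Finset.mul_sum, Finset.mul_sum, ← Finset.sum_add_distrib]
      refine Finset.sum_congr rfl fun j _ => ?_
      simp only [Pi.add_apply, Pi.smul_apply, smul_eq_mul]
      ring
    rw [h3, h1, h2]
    simp

lemma coat {a : Fin l → K} (ha : a ≠ 0) : IsCoatom (hyp a) := by
  have h1 : Function.Surjective (fn a) := by
    apply LinearMap.surjective
    intro h
    apply ha
    ext j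
    rw [← fn_single a j, h]
    rfl
  exact LinearMap.isCoatom_ker_of_surjective h1

/-- the hyperplanes as elements of the lattice -/
noncomputable def hh (A : Fin n → Fin l → K) (i : Fin n) : Lat A :=
  ⟨hyp (A i), {i}, by simp⟩

/-- the intersection of two hyperplanes as an element of the lattice -/
noncomputable def hi (A : Fin n → Fin l → K) (i j : Fin n) : Lat A :=
  ⟨hyp (A i) ⊓ hyp (A j), {i, j}, by
    apply le_antisymm
    · intro x hx
      simp only [Submodule.mem_iInf] at hx
      exact ⟨hx i (by simp), hx j (by simp)⟩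
    · intro x hx
      simp only [Submodule.mem_iInf]
      intro k hk
      rw [Finset.mem_insert, Finset.mem_singleton] at hk
      rcases hk with rfl | rfl
      · exact hx.1
      · exact hx.2⟩

/-- the whole space as an element of the lattice -/
noncomputable def tt (A : Fin n → Fin l → K) : Lat A := ⟨⊤, ∅, by simp⟩

lemma rel {A : Fin n → Fin l → K} (i j k : Fin n) :
    A k ∈ Submodule.span K {A i, A j} ↔
      ∀ Y : Lat A, Y ≤ hh A i → Y ≤ hh A j → Y ≤ hh A k := by
  rw [← inf_le]
  constructor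
  · intro h Y h1 h2
    exact (le_inf h1 h2 : (Y : Submodule K (Fin l → K)) ≤ _).trans h
  · intro h
    exact h (hi A i j) (inf_le_left : hyp (A i) ⊓ hyp (A j) ≤ hyp (A i))
      (inf_le_right : hyp (A i) ⊓ hyp (A j) ≤ hyp (A j))

/-- order-theoretic description of the hyperplanes -/
def IsC {P : Type} [PartialOrder P] (X : P) : Prop :=
  (∃ Y, X < Y) ∧ ∀ Y, X < Y → ∀ Z, ¬ Y < Z

lemma isC_map {P Q : Type} [PartialOrder P] [PartialOrder Q] (e : P ≃o Q) {X : P} (h : IsC X) :
    IsC (e X) := by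
  obtain ⟨⟨Y, hY⟩, h2⟩ := h
  refine ⟨⟨e Y, e.lt_iff_lt.2 hY⟩, ?_⟩
  intro Y hY Z hYZ
  refine h2 (e.symm Y) ?_ (e.symm Z) (e.symm.lt_iff_lt.2 hYZ)
  rw [← e.lt_iff_lt, e.apply_symm_apply]
  exact hY

lemma isC_iff {A : Fin n → Fin l → K} (hA : Simple A) (X : Lat A) : IsC X ↔ ∃ i, X = hh A i := by
  have hlt : ∀ i, hh A i < tt A := by
    intro i
    show hyp (A i) < ⊤
    exact lt_top_iff_ne_top.2 (coat (hA.1 i)).1
  constructor
  · rintro ⟨⟨Y, hY⟩, h2⟩
    obtain ⟨X, s, hs⟩ := X
    have hne : s.Nonempty := by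
      by_contra hne
      rw [Finset.not_nonempty_iff_eq_empty] at hne
      subst hne
      have h3 : X = ⊤ := by rw [← hs]; simp
      have h4 : X < (Y : Submodule K (Fin l → K)) := hY
      rw [h3] at h4
      exact not_top_lt h4
    obtain ⟨i, hi⟩ := hne
    have h5 : X ≤ hyp (A i) := by
      rw [← hs]
      intro x hx
      simp only [Submodule.mem_iInf] at hx
      exact hx i hi
    refine ⟨i, ?_⟩
    by_contra hcon
    have h6 : (⟨X, s, hs⟩ : Lat A) < hh A i := lt_of_le_of_ne h5 hcon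
    exact h2 _ h6 _ (hlt i)
  · rintro ⟨i, rfl⟩
    refine ⟨⟨tt A, hlt i⟩, ?_⟩
    intro Y hY Z hYZ
    have h1 : (Y : Submodule K (Fin l → K)) = ⊤ := (coat (hA.1 i)).2 _ hY
    have h2 : (Y : Submodule K (Fin l → K)) < Z := hYZ
    rw [h1] at h2
    exact not_top_lt h2

lemma hh_inj {A : Fin n → Fin l → K} (hA : Simple A) : Function.Injective (hh A) := by
  intro i j hij
  by_contra hne
  have h1 : hyp (A i) = hyp (A j) := congrArg Subtype.val hij
  have h2 : A i ∈ Submodule.span K {A j, A j} := by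
    rw [← inf_le, h1]
    exact inf_le_left
  obtain ⟨s, t, hst⟩ := Submodule.mem_span_pair.1 h2
  apply hA.2 i j hne (s + t)
  rw [add_smul, hst]

end Pool.Agent.H40.TF.BJ

namespace Pool.Agent.H40.TF

open Pool.Agent.H77.TF BJ

theorem bij : S_BIJ := by
  classical
  rintro K _ l n m A B hA hB ⟨e⟩
  have h1 : ∀ i, ∃ j, e (hh A i) = hh B j := by
    intro i
    rw [← isC_iff hB]
    exact isC_map e ((isC_iff hA _).2 ⟨i, rfl⟩)
  choose f hf using h1
  have hinj : Function.Injective f := by
    intro i j hij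
    apply hh_inj hA
    apply e.injective
    rw [hf, hf, hij]
  have hsurj : Function.Surjective f := by
    intro j
    obtain ⟨i, hi⟩ := (isC_iff hA _).1 (isC_map e.symm ((isC_iff hB _).2 ⟨j, rfl⟩))
    refine ⟨i, hh_inj hB ?_⟩
    rw [← hf, ← hi, e.apply_symm_apply]
  refine ⟨Equiv.ofBijective f ⟨hinj, hsurj⟩, fun i j k => ?_⟩
  rw [rel, rel]
  show _ ↔ ∀ Y : Lat B, Y ≤ hh B (f i) → Y ≤ hh B (f j) → Y ≤ hh B (f k)
  rw [← hf, ← hf, ← hf]
  constructor
  · intro h Y hi hj
    have := h (e.symm Y) (by rw [← e.le_iff_le, e.apply_symm_apply]; exact hi)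
      (by rw [← e.le_iff_le, e.apply_symm_apply]; exact hj)
    rw [← e.le_iff_le, e.apply_symm_apply] at this
    exact this
  · intro h Y hi hj
    exact e.le_iff_le.1 (h (e Y) (e.le_iff_le.2 hi) (e.le_iff_le.2 hj))

end Pool.Agent.H40.TF
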