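import Mathlib
import Pool.Agent.H77.TF.Stm

/-!
# Project TF, module LAT (helper40): the blocking condition is combinatorial
-/

set_option autoImplicit false

open Module

namespace Pool.Agent.H40.TF

open Pool.Agent.H77.TF

variable {K : Type} [Field K] {l n : ℕ}

/-- a functional which does not vanish at two given nonzero vectors -/
lemma func (a b : Fin l → K) (ha : a ≠ 0) (hb : b ≠ 0) :
    ∃ f : (Fin l → K) →ₗ[K] K, f a ≠ 0 ∧ f b ≠ 0 := by
  obtain ⟨i, hi⟩ := Function.ne_iff.1 ha
  obtain ⟨j, hj⟩ := Function.ne_iff.1 hb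
  simp only [Pi.zero_apply] at hi hj
  by_cases h1 : b i = 0
  · by_cases h2 : a j = 0
    · refine ⟨(LinearMap.proj i : (Fin l → K) →ₗ[K] K) + LinearMap.proj j, ?_, ?_⟩
      · simpa [h2] using hi
      · simpa [h1] using hj
    · exact ⟨LinearMap.proj j, h2, hj⟩
  · exact ⟨LinearMap.proj i, hi, h1⟩

/-- the general linear group is transitive on the nonzero vectors -/
lemma trans (a b : Fin l → K) (ha : a ≠ 0) (hb : b ≠ 0) :
    ∃ φ : (Fin l → K) ≃ₗ[K] (Fin l → K), φ a = b := by
  obtain ⟨f, hfa, hfb⟩ := func a b ha hb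
  let φ : (Fin l → K) →ₗ[K] (Fin l → K) := LinearMap.id + f.smulRight ((f a)⁻¹ • (b - a))
  have hφ : ∀ x, φ x = x + (f x * (f a)⁻¹) • (b - a) := by
    intro x
    show x + f x • ((f a)⁻¹ • (b - a)) = _
    rw [smul_smul]
  have hinj : Function.Injective φ := by
    rw [← LinearMap.ker_eq_bot, LinearMap.ker_eq_bot']
    intro x hx
    rw [hφ] at hx
    have h1 := congrArg f hx
    rw [map_add, map_smul, map_sub, map_zero, smul_eq_mul] at h1
    have h2 : f x * f b = 0 := by
      have : f x * f b = (f x + f x * (f a)⁻¹ * (f b - f a)) * f a := by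
        field_simp
        ring
      rw [this, h1, zero_mul]
    have h3 : f x = 0 := by
      rcases mul_eq_zero.1 h2 with h | h
      · exact h
      · exact absurd h hfb
    rw [h3, zero_mul, zero_smul, add_zero] at hx
    exact hx
  refine ⟨LinearEquiv.ofInjectiveEndo φ hinj, ?_⟩
  show φ a = b
  rw [hφ, mul_inv_cancel₀ hfa, one_smul]
  abel

section
variable [Fintype K]

noncomputable local instance ftS : Fintype (Submodule K (Fin l → K)) := Fintype.ofFinite _

open Classical in
/-- the planes of forms -/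
noncomputable def pls (K : Type) [Field K] [Fintype K] (l : ℕ) :
    Finset (Submodule K (Fin l → K)) :=
  Finset.univ.filter fun W => finrank K W = 2

lemma mem_pls {W : Submodule K (Fin l → K)} : W ∈ pls K l ↔ finrank K W = 2 := by
  simp [pls]

open Classical in
lemma pencil (a b : Fin l → K) (ha : a ≠ 0) (hb : b ≠ 0) :
    ((pls K l).filter fun W => a ∈ W).card = ((pls K l).filter fun W => b ∈ W).card := by
  obtain ⟨φ, hφ⟩ := trans a b ha hb
  refine Finset.card_bij' (fun W _ => W.map (φ : (Fin l → K) →ₗ[K] (Fin l → K)))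
    (fun W _ => W.map (φ.symm : (Fin l → K) →ₗ[K] (Fin l → K))) ?_ ?_ ?_ ?_
  · intro W hW
    rw [Finset.mem_filter, mem_pls] at hW ⊢
    refine ⟨by rw [LinearEquiv.finrank_map_eq]; exact hW.1, ?_⟩
    rw [← hφ]
    exact Submodule.mem_map_of_mem hW.2
  · intro W hW
    rw [Finset.mem_filter, mem_pls] at hW ⊢
    refine ⟨by rw [LinearEquiv.finrank_map_eq]; exact hW.1, ?_⟩
    have h1 : a = φ.symm b := by rw [← hφ, LinearEquiv.symm_apply_apply]
    rw [h1]
    exact Submodule.mem_map_of_mem hW.2
  · intro W _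
    ext x
    simp
  · intro W _
    ext x
    simp

omit [Fintype K] in
lemma span_pair {A : Fin n → Fin l → K} (hA : Simple A) {i j : Fin n} (hij : i ≠ j) :
    finrank K (Submodule.span K {A i, A j}) = 2 ∧
      ∀ W : Submodule K (Fin l → K), finrank K W = 2 → A i ∈ W → A j ∈ W →
        W = Submodule.span K {A i, A j} := by
  have h1 : LinearIndependent K ![A j, A i] := by
    rw [LinearIndependent.pair_iff' (hA.1 j)]
    intro c hc
    exact hA.2 i j hij c hc.symm
  have h2 : finrank K (Submodule.span K {A i, A j}) = 2 := by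
    have h3 := finrank_span_eq_card h1
    rw [Fintype.card_fin] at h3
    have h4 : Set.range ![A j, A i] = {A i, A j} := by
      rw [Matrix.range_cons_cons_empty, Set.pair_comm]
    rw [h4] at h3
    exact h3
  refine ⟨h2, fun W hW hi hj => ?_⟩
  symm
  apply Submodule.eq_of_le_of_finrank_eq
  · rw [Submodule.span_le]
    rintro x (rfl | rfl)
    · exact hi
    · exact hj
  · rw [h2, hW]

open Classical in
/-- the number of forms of the arrangement in `W` -/
noncomputable def mm (A : Fin n → Fin l → K) (W : Submodule K (Fin l → K)) : ℕ :=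
  (Finset.univ.filter fun i => A i ∈ W).card

open Classical in
lemma count {A : Fin n → Fin l → K} (hA : Simple A) :
    (((pls K l).filter fun W => ∃ i, A i ∈ W).card : ℚ) =
      ∑ i, ((((pls K l).filter fun W => A i ∈ W).card : ℚ) -
        ∑ j ∈ Finset.univ.erase i, (1 : ℚ) / mm A (Submodule.span K {A i, A j})) := by
  have hw : ∀ W : Submodule K (Fin l → K), ∀ i, A i ∈ W →
      ∑ j ∈ Finset.univ.filter (fun j => A j ∈ W), (1 : ℚ) / mm A W = 1 := by
    intro W i hi
    rw [Finset.sum_const, nsmul_eq_mul]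
    have h1 : 0 < mm A W := Finset.card_pos.2 ⟨i, by simpa using hi⟩
    show (mm A W : ℚ) * (1 / mm A W) = 1
    have h2 : (mm A W : ℚ) ≠ 0 := by exact_mod_cast h1.ne'
    field_simp
  have h1 : (((pls K l).filter fun W => ∃ i, A i ∈ W).card : ℚ) =
      ∑ W ∈ pls K l, ∑ i ∈ Finset.univ.filter (fun i => A i ∈ W), (1 : ℚ) / mm A W := by
    rw [Finset.card_filter]
    push_cast
    refine Finset.sum_congr rfl fun W _ => ?_
    split_ifs with h
    · obtain ⟨i, hi⟩ := h
      exact (hw W i hi).symm
    · rw [Finset.filter_false_of_mem, Finset.sum_empty]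
      intro i _ hi
      exact h ⟨i, hi⟩
  have h2 : ∑ W ∈ pls K l, ∑ i ∈ Finset.univ.filter (fun i => A i ∈ W), (1 : ℚ) / mm A W =
      ∑ i, ∑ W ∈ (pls K l).filter (fun W => A i ∈ W), (1 : ℚ) / mm A W := by
    simp only [Finset.sum_filter]
    rw [Finset.sum_comm]
  rw [h1, h2]
  refine Finset.sum_congr rfl fun i _ => ?_
  have h3 : ∀ W ∈ (pls K l).filter (fun W => A i ∈ W), (1 : ℚ) / mm A W =
      1 - ∑ j ∈ Finset.univ.erase i, if A j ∈ W then (1 : ℚ) / mm A W else 0 := by
    intro W hW
    rw [Finset.mem_filter] at hW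
    have h4 := hw W i hW.2
    rw [Finset.sum_filter, ← Finset.add_sum_erase _ _ (Finset.mem_univ i), if_pos hW.2] at h4
    linarith
  rw [Finset.sum_congr rfl h3, Finset.sum_sub_distrib, Finset.sum_const, nsmul_eq_mul, mul_one,
    Finset.sum_comm]
  congr 1
  refine Finset.sum_congr rfl fun j hj => ?_
  have hij : i ≠ j := (Finset.ne_of_mem_erase hj).symm
  obtain ⟨h5, h6⟩ := span_pair hA hij
  rw [← Finset.sum_filter, Finset.filter_filter]
  have h7 : (pls K l).filter (fun W => A i ∈ W ∧ A j ∈ W) = {Submodule.span K {A i, A j}} := by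
    ext W
    rw [Finset.mem_filter, mem_pls, Finset.mem_singleton]
    constructor
    · rintro ⟨ha, hb, hc⟩
      exact h6 W ha hb hc
    · rintro rfl
      exact ⟨h5, Submodule.subset_span (by simp), Submodule.subset_span (by simp)⟩
  rw [h7, Finset.sum_singleton]

end

theorem lat : S_LAT := by
  classical
  intro K _ _ l n m A B hA hB β hβ hblk
  have hM : ∀ i j, mm A (Submodule.span K {A i, A j}) =
      mm B (Submodule.span K {B (β i), B (β j)}) := by
    intro i j
    refine Finset.card_bij (fun k _ => β k) ?_ (fun a _ b _ h => β.injective h) ?_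
    · intro k hk
      rw [Finset.mem_filter] at hk ⊢
      exact ⟨Finset.mem_univ _, (hβ i j k).1 hk.2⟩
    · intro k hk
      rw [Finset.mem_filter] at hk
      refine ⟨β.symm k, ?_, β.apply_symm_apply k⟩
      rw [Finset.mem_filter]
      refine ⟨Finset.mem_univ _, (hβ i j _).2 ?_⟩
      rw [β.apply_symm_apply]
      exact hk.2
  have hcount : ((pls K l).filter fun W => ∃ i, A i ∈ W).card =
      ((pls K l).filter fun W => ∃ i, B i ∈ W).card := by
    have h1 := count hA
    have h2 := count hB
    have h3 : (((pls K l).filter fun W => ∃ i, A i ∈ W).card : ℚ) =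
        (((pls K l).filter fun W => ∃ i, B i ∈ W).card : ℚ) := by
      rw [h1, h2, ← Equiv.sum_comp β]
      refine Finset.sum_congr rfl fun i _ => ?_
      rw [pencil (A i) (B (β i)) (hA.1 i) (hB.1 (β i))]
      congr 1
      refine Finset.sum_bij (fun j _ => β j) ?_ (fun a _ b _ h => β.injective h) ?_ ?_
      · intro j hj
        rw [Finset.mem_erase] at hj ⊢
        exact ⟨fun h => hj.1 (β.injective h), Finset.mem_univ _⟩
      · intro k hk
        rw [Finset.mem_erase] at hk
        refine ⟨β.symm k, ?_, β.apply_symm_apply k⟩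
        rw [Finset.mem_erase]
        refine ⟨fun h => hk.1 ?_, Finset.mem_univ _⟩
        rw [← h, β.apply_symm_apply]
      · intro j _
        rw [hM i j]
    exact_mod_cast h3
  have hall : (pls K l).filter (fun W => ∃ i, A i ∈ W) = pls K l := by
    rw [Finset.filter_true_of_mem]
    intro W hW
    exact hblk W (mem_pls.1 hW)
  rw [hall] at hcount
  have hall2 : (pls K l).filter (fun W => ∃ i, B i ∈ W) = pls K l :=
    Finset.eq_of_subset_of_card_le (Finset.filter_subset _ _) hcount.le
  intro W hW
  have h1 : W ∈ (pls K l).filter (fun W => ∃ i, B i ∈ W) := by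
    rw [hall2]
    exact mem_pls.2 hW
  exact (Finset.mem_filter.1 h1).2

end Pool.Agent.H40.TF
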