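import Pool.Agent.H77.TF.Stm2
import Pool.Agent.H40.TF.Lat

/-!
# Project TG, module LT2 (helper40): the number of missed planes is combinatorial
-/

set_option autoImplicit false

open Module

namespace Pool.Agent.H40.TF

open Pool.Agent.H77.TF

attribute [local instance] ftS

open Classical in
lemma hcount {K : Type} [Field K] [Fintype K] {l n m : ℕ} {A : Fin n → Fin l → K}
    {B : Fin m → Fin l → K} (hA : Simple A) (hB : Simple B) (β : Fin n ≃ Fin m)
    (hβ : ∀ i j k, A k ∈ Submodule.span K {A i, A j} ↔
      B (β k) ∈ Submodule.span K {B (β i), B (β j)}) :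
    ((pls K l).filter fun W => ∃ i, A i ∈ W).card =
      ((pls K l).filter fun W => ∃ i, B i ∈ W).card := by
  have hM : ∀ i j, mm A (Submodule.span K {A i, A j}) =
      mm B (Submodule.span K {B (β i), B (β j)}) := by
    intro i j
    refine Finset.card_bij (fun k _ => β k) ?_ (fun a _ b _ h => β.injective h) ?_
    · intro k hk
      rw [Finset.mem_filter] at hk ⊢
      exact ⟨Finset.mem_univ _, (hβ i j k).1 hk.2⟩
    · intro k hk
      rw [Finset.mem_filter] at hk
      refine ⟨β.symm k, ?_, β.apply_symm_apply k⟩
      rw [Finset.mem_filter]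
      refine ⟨Finset.mem_univ _, (hβ i j _).2 ?_⟩
      rw [β.apply_symm_apply]
      exact hk.2
  have h1 := count hA
  have h2 := count hB
  have h3 : (((pls K l).filter fun W => ∃ i, A i ∈ W).card : ℚ) =
      (((pls K l).filter fun W => ∃ i, B i ∈ W).card : ℚ) := by
    rw [h1, h2, ← Equiv.sum_comp β]
    refine Finset.sum_congr rfl fun i _ => ?_
    rw [pencil (A i) (B (β i)) (hA.1 i) (hB.1 (β i))]
    congr 1
    refine Finset.sum_bij (fun j _ => β j) ?_ (fun a _ b _ h => β.injective h) ?_ ?_
    · intro j hj
      rw [Finset.mem_erase] at hj ⊢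
      exact ⟨fun h => hj.1 (β.injective h), Finset.mem_univ _⟩
    · intro k hk
      rw [Finset.mem_erase] at hk
      refine ⟨β.symm k, ?_, β.apply_symm_apply k⟩
      rw [Finset.mem_erase]
      refine ⟨fun h => hk.1 ?_, Finset.mem_univ _⟩
      rw [← h, β.apply_symm_apply]
    · intro j _
      rw [hM i j]
  exact_mod_cast h3

open Classical in
lemma uncD_eq {K : Type} [Field K] [Fintype K] {l : ℕ} {ν : Type} (A : ν → Fin l → K) :
    uncD A + ((pls K l).filter fun W => ∃ i, A i ∈ W).card = (pls K l).card := by
  have h1 : uncD A = ((pls K l).filter fun W => ¬ ∃ i, A i ∈ W).card := by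
    unfold uncD pls
    rw [Nat.card_eq_fintype_card, Fintype.card_subtype, Finset.filter_filter]
    congr 1
    ext W
    simp
  rw [h1, add_comm]
  exact Finset.card_filter_add_card_filter_not _

theorem lt2 : S_LT2 := by
  classical
  intro K _ _ l n m A B hA hB β hβ
  have h1 := uncD_eq A
  have h2 := uncD_eq B
  have h3 := hcount hA hB β hβ
  have h4 : uncD A + ((pls K l).filter fun W => ∃ i, A i ∈ W).card = (pls K l).card := by
    convert h1
  have h5 : uncD B + ((pls K l).filter fun W => ∃ i, B i ∈ W).card = (pls K l).card := by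
    convert h2
  have h6 : ((pls K l).filter fun W => ∃ i, A i ∈ W).card =
      ((pls K l).filter fun W => ∃ i, B i ∈ W).card := by
    convert h3
  omega

end Pool.Agent.H40.TF
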