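import Pool.Agent.H77.TF.Stm2

/-!
# Project TG, module PLU (helper40): planes in a three-dimensional space of forms
-/

set_option autoImplicit false

open Module

namespace Pool.Agent.H40.TF

open Pool.Agent.H77.TF

theorem plu (hPL3 : S_PL3) : S_PLU := by
  classical
  intro K _ _ l ν _ A U hU
  have hfin : finrank K U = finrank K (Fin 3 → K) := by rw [hU, finrank_fin_fun]
  obtain ⟨e⟩ : Nonempty (U ≃ₗ[K] (Fin 3 → K)) := FiniteDimensional.nonempty_linearEquiv_of_finrank_eq hfin
  set ι : (Fin 3 → K) →ₗ[K] (Fin l → K) := U.subtype ∘ₗ (e.symm : (Fin 3 → K) →ₗ[K] U) with hι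
  have hinj : Function.Injective ι := U.injective_subtype.comp e.symm.injective
  have hrange : LinearMap.range ι = U := by
    ext x
    constructor
    · rintro ⟨y, rfl⟩
      exact (e.symm y).2
    · intro hx
      exact ⟨e ⟨x, hx⟩, by simp [hι]⟩
  set A' : {i // A i ∈ U} → Fin 3 → K := fun i => e ⟨A i, i.2⟩ with hA'
  have hιA : ∀ i : {i // A i ∈ U}, ι (A' i) = A i := by
    intro i
    simp [hι, hA']
  have hmiss : ∀ W : Submodule K (Fin l → K), W ≤ U →
      ((∀ i : {i // A i ∈ U}, A' i ∉ W.comap ι) ↔ ∀ i, A i ∉ W) := by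
    intro W hW
    constructor
    · intro h i hi
      refine h ⟨i, hW hi⟩ ?_
      rw [Submodule.mem_comap, hιA]
      exact hi
    · intro h i hi
      rw [Submodule.mem_comap, hιA] at hi
      exact h i hi
  have hfr : ∀ W' : Submodule K (Fin 3 → K), finrank K (W'.map ι) = finrank K W' := fun W' =>
    (LinearEquiv.finrank_eq (Submodule.equivMapOfInjective ι hinj W')).symm
  have hmc : ∀ W : Submodule K (Fin l → K), W ≤ U → (W.comap ι).map ι = W := by
    intro W hW
    rw [Submodule.map_comap_eq, hrange]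
    exact inf_eq_right.2 hW
  have hcm : ∀ W' : Submodule K (Fin 3 → K), (W'.map ι).comap ι = W' := fun W' =>
    Submodule.comap_map_eq_of_injective hinj W'
  have hmapU : ∀ W' : Submodule K (Fin 3 → K), W'.map ι ≤ U := by
    intro W'
    rw [← hrange]
    exact LinearMap.map_le_range
  have hcard : uncD A' =
      Nat.card {W : Submodule K (Fin l → K) // finrank K W = 2 ∧ W ≤ U ∧ ∀ i, A i ∉ W} := by
    unfold uncD
    refine Nat.card_congr ⟨fun W' => ⟨W'.1.map ι, ?_, hmapU _, ?_⟩,
      fun W => ⟨W.1.comap ι, ?_, ?_⟩, ?_, ?_⟩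
    · rw [hfr]
      exact W'.2.1
    · rw [← hmiss _ (hmapU _), hcm]
      exact W'.2.2
    · rw [← hfr, hmc _ W.2.2.1]
      exact W.2.1
    · rw [hmiss _ W.2.2.1]
      exact W.2.2.2
    · intro W'
      exact Subtype.ext (hcm _)
    · intro W
      exact Subtype.ext (hmc _ W.2.2.1)
  have hcardU : Nat.card {i // A i ∈ U} = Fintype.card {i // A i ∈ U} := Nat.card_eq_fintype_card
  obtain ⟨h1, h2⟩ := hPL3 K {i // A i ∈ U} A'
  rw [← hcard, hcardU]
  refine ⟨h1, fun h => ?_⟩
  obtain ⟨r, hr, hrW⟩ := h2 h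
  refine ⟨ι r, fun h0 => hr (hinj (by rw [h0, map_zero])), fun W hW hWU hWA => ?_⟩
  have h3 := hrW (W.comap ι) (by rw [← hfr, hmc _ hWU]; exact hW) ((hmiss W hWU).2 hWA)
  exact h3

end Pool.Agent.H40.TF
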